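import Pool.Agent.H172.LG.Fin
import Pool.Agent.H172.RP.GeoK

/-!
# A finite geography of log canonical divisors for toroidal pairs

Let `F i`, `i = 1, ..., r`, be a form of degree `d i ≥ 1` in `n i + 1` variables whose zero set `H i` in
the projective `n i`-space is a smooth hypersurface, and let `K` be the function field of an abelian cover
of the product `Y` of these projective spaces which is branched only along the hypersurfaces `H i`: the
field `K` is generated by the affine coordinates `x i j / x i 0` of `Y` and by roots `z j`,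
`z j ^ (m j) = ∏ i, (F i (x i) / x i 0 ^ (d i)) ^ (a j i)`, where `m j` divides `a j i * d i`.

The `Multiplicities` of a prime divisor `P` over `Y` (a divisorial place of `K`) are the orders `v i`
along `P` of the pullbacks of the divisors `H i`. The divisor `P` is a log place of the pair
`(Y, H 1 + ... + H r)` if its log discrepancy is zero: the order of the canonical form of `Y` along `P` is
less than the order of the pullback of `H 1 + ... + H r`. The vectors of multiplicities of the log places
are `Primitive` elements of the cone of the `Admissible` vectors: those `v ≠ 0` of nonnegative integers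
with `m j ∣ ∑ i, a j i * v i` for all `j`.

Let `X` be a normal projective variety with function field `K` whose prime divisors over the
hypersurfaces `H i` are the log places with multiplicities in a finite set `rays` (a toroidal embedding
over `Y`). A function `δ` with rational values, `δ v ≤ 1`, defines the divisor `Δ` on `X` which is the sum
of `δ v` times the sum of the prime divisors of `X` with multiplicities `v ∈ rays`; we put `δ v = 1` for
`v ∉ rays`. The pair `(X, Δ)` is log canonical if `K_X + Δ` is `ℚ`-Cartier and `Δ ≥ 0`: the coefficients may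
be one, and no positivity or bigness of `Δ` is assumed.

Fix a nonzero rational canonical form `η` of `X`, so `K_X = div η`. For a prime divisor `P` over `X` let
`σ P Δ` be the asymptotic order along `P` of the rational functions `ω / η ^ m` (`m ≥ 1`) where `ω` is a
section of `m (K_X + Δ)`, or a section of `m (K_X + Δ) + A` for any fixed divisor `A`. So `- σ P Δ` is the
multiplicity at `P` of the positive part of `K_X + Δ` in the Zariski decomposition of Nakayama on a model
of `X` on which `P` is a divisor.

The theorem: there are finitely many affine functions `ℓ k` with rational coefficients of the variables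
`δ v`, `v ∈ rays`, and a number `D ≥ 1`, such that for all `δ` with `K_X + Δ` pseudo-effective, and for all
prime divisors `P` over `X`: if `q ≥ 1` and `q Δ` is integral, then `σ P Δ` is computed by a section of
`q D (K_X + Δ)`; and on the set of the `δ` where the signs of the `ℓ k` have given values the function
`δ ↦ σ P Δ` is affine with rational coefficients. The decomposition of the set of the boundaries `Δ` with
pseudo-effective `K_X + Δ` into these finitely many rational polyhedral pieces does not depend on `P`: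
there is a finite geography of Zariski decompositions of log canonical divisors, with bounded denominators.

Sections of `m (K_X + Δ) + j A` are functions of `N = dim X` rational vector fields, with a condition at
the divisorial places of `K` with centre not in the hypersurfaces `H i` (`v = 0`, where `X` is smooth and
`Δ` is zero) and at the log places.
-/

set_option autoImplicit false

open FF MvPolynomial Pool.Agent.W602.GT

namespace Pool.Agent.Results.MP_a27c81_ag.Geography

/-- The form `F` has no singular zeros: its partial derivatives have no common zero but `0`. -/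
def Smooth {n : ℕ} (F : MvPolynomial (Fin (n + 1)) ℂ) : Prop :=
  ∀ x : Fin (n + 1) → ℂ, x ≠ 0 → ∃ l, eval x (pderiv l F) ≠ 0

section

variable {r R : ℕ}

/-- The vectors which satisfy the divisibility conditions. -/
def Admissible (m : Fin R → ℕ) (a : Fin R → Fin r → ℕ) (v : Fin r → ℕ) : Prop :=
  v ≠ 0 ∧ ∀ j, m j ∣ ∑ i, a j i * v i

/-- The admissible vectors which are not proper multiples of admissible vectors. -/
def Primitive (m : Fin R → ℕ) (a : Fin R → Fin r → ℕ) (v : Fin r → ℕ) : Prop :=
  Admissible m a v ∧ ∀ (k : ℕ) (u : Fin r → ℕ), Admissible m a u → (∀ i, v i = k * u i) → k = 1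

/-- Affine functions with rational coefficients: the coefficients of the variables `δ v` and the constant
term. -/
abbrev Affine (r : ℕ) : Type := ((Fin r → ℕ) → ℚ) × ℚ

/-- The value of the affine function `g` of the variables `δ v`, `v ∈ rays`. -/
def value (rays : Finset (Fin r → ℕ)) (g : Affine r) (δ : (Fin r → ℕ) → ℚ) : ℚ :=
  g.2 + ∑ v ∈ rays, g.1 v * δ v

end

section cover

variable {r : ℕ} {n : Fin r → ℕ} {N : ℕ} {K : Type} [Field K] [Algebra ℂ K]

/-- The affine coordinates of the product of the projective spaces. -/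
noncomputable def affine (x : ∀ i, Fin (n i + 1) → K) (b : (i : Fin r) × Fin (n i)) : K :=
  x b.1 b.2.succ / x b.1 0

/-- The canonical form of the product of the projective spaces (which has the weight `n i + 1` in the
homogeneous coordinates `x i`), at the vector fields `D`. -/
noncomputable def canonicalForm (e : ((i : Fin r) × Fin (n i)) ≃ Fin N)
    (x : ∀ i, Fin (n i + 1) → K) (D : Fin N → Derivation ℂ K K) : K :=
  (∏ i, x i 0 ^ (n i + 1)) * (Matrix.of fun a b : Fin N => D a (affine x (e.symm b))).det

/-- `α i` is the least order of the homogeneous coordinates `x i` at `P`, and `v i` is the order of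
the pullback of the hypersurface `F i = 0`. -/
def Multiplicities (x : ∀ i, Fin (n i + 1) → K) (F : ∀ i, MvPolynomial (Fin (n i + 1)) ℂ)
    (d : Fin r → ℕ) (P : Place ℂ K) (α : Fin r → ℤ) (v : Fin r → ℕ) : Prop :=
  (∀ i l, α i ≤ P.ord (x i l)) ∧ (∀ i, ∃ l, P.ord (x i l) = α i) ∧
    ∀ i, P.ord (aeval (x i) (F i)) = d i * α i + v i

/-- The log discrepancy of `P` for the pair of the product of the projective spaces and the sum of
the hypersurfaces is zero: at some vector fields which are regular at `P` the order of the canonical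
form is less than the order of the pullback of the sum of the hypersurfaces. -/
def LogPlace (e : ((i : Fin r) × Fin (n i)) ≃ Fin N) (x : ∀ i, Fin (n i + 1) → K)
    (F : ∀ i, MvPolynomial (Fin (n i + 1)) ℂ) (d : Fin r → ℕ) (P : Place ℂ K) : Prop :=
  ∃ α v, Multiplicities x F d P α v ∧ ∃ D : Fin N → Derivation ℂ K K, (∀ c, DerReg P (D c)) ∧
    canonicalForm e x D ≠ 0 ∧
    P.ord (canonicalForm e x D) < ∑ i, ((n i : ℤ) + 1) * α i + ∑ i, (v i : ℤ)

variable (e : ((i : Fin r) × Fin (n i)) ≃ Fin N) (x : ∀ i, Fin (n i + 1) → K)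
  (F : ∀ i, MvPolynomial (Fin (n i + 1)) ℂ) (d : Fin r → ℕ) (δ : (Fin r → ℕ) → ℚ)

open Classical in
/-- `ω` is a section of `m (K_X + Δ) + j A`: a rational section of the `m`-th power of the canonical
bundle (`IsPluri`: a function of `N` rational vector fields which is multiplied by `det B ^ m` under
a linear substitution `B`) whose order on the vector fields which are regular at `P` is at least `j`
times the order of one of the functions in `S` minus `m` times the coefficient of `Δ`, for all
divisorial places `P` of `K` with multiplicities `v = 0` (coefficient zero) and for all log places with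
multiplicities `v` (coefficient `δ v`). Here `A` is the divisor which is generated by the finite set
`S` of functions; `A = 0` if `S = {1}`. -/
def IsSection (S : Finset K) (m j : ℕ) (ω : (Fin N → Derivation ℂ K K) → K) : Prop :=
  IsPluri m ω ∧ ∀ P : Place ℂ K, Divisorial N P → ∀ α v, Multiplicities x F d P α v →
    (v = 0 ∨ LogPlace e x F d P) → ∀ D : Fin N → Derivation ℂ K K, (∀ c, DerReg P (D c)) →
      ω D = 0 ∨ ∃ s ∈ S, s ≠ 0 ∧
        (j * P.ord s : ℚ) - (if v = 0 then 0 else m * δ v) ≤ P.ord (ω D)

/-- `K_X + Δ` is pseudo-effective: there is a divisor `A` such that for all `M` a positive multiple of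
`M (K_X + Δ) + A` is effective. -/
def Pseudoeffective : Prop :=
  ∃ S : Finset K, ∀ M : ℕ, ∃ j : ℕ, 1 ≤ j ∧ ∃ ω : (Fin N → Derivation ℂ K K) → K, ω ≠ 0 ∧
    IsSection e x F d δ S (j * M) j ω

/-- `σ` is the asymptotic order along `P` of the functions `ω / η ^ m`, where `ω` is a section of
`m (K_X + Δ)`, and it is computed by a section of `E (K_X + Δ)`. (1) The order along `P` of `ω / η ^ m` is at
least `m * σ` for all nonzero sections `ω` of `m (K_X + Δ)`, `m ≥ 1`. (2) For every divisor `A` (generated
by `S`) there is `c` such that the order along `P` of `ω / η ^ m` is at least `m * σ - c` for all nonzero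
sections `ω` of `m (K_X + Δ) + A`, `m ≥ 1`. (3) There is a nonzero section `s` of `E (K_X + Δ)` such that the
order of `s / η ^ E` is `E * σ`. (The order of `ω / η ^ m` is computed at vector fields `v` with
`ω v ≠ 0`.) -/
def AsymptoticOrder (η : (Fin N → Derivation ℂ K K) → K) (E : ℕ) (P : Place ℂ K) (σ : ℚ) : Prop :=
  (∀ (m : ℕ) (ω : (Fin N → Derivation ℂ K K) → K), 1 ≤ m → IsSection e x F d δ {1} m 1 ω →
    ∀ v, ω v ≠ 0 → m * σ ≤ P.ord (ω v) - m * P.ord (η v)) ∧
  (∀ S : Finset K, ∃ c : ℕ, ∀ (m : ℕ) (ω : (Fin N → Derivation ℂ K K) → K), 1 ≤ m →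
    IsSection e x F d δ S m 1 ω →
      ∀ v, ω v ≠ 0 → m * σ - c ≤ P.ord (ω v) - m * P.ord (η v)) ∧
  ∃ s : (Fin N → Derivation ℂ K K) → K, s ≠ 0 ∧ IsSection e x F d δ {1} E 1 s ∧
    ∀ v, s v ≠ 0 → P.ord (s v) - E * P.ord (η v) = E * σ

end cover

theorem log_iff {r : ℕ} {n : Fin r → ℕ} {N : ℕ} {K : Type} [Field K] [Algebra ℂ K]
    {e : ((i : Fin r) × Fin (n i)) ≃ Fin (N + 1)} {x : ∀ i, Fin (n i + 1) → K}
    {F : ∀ i, MvPolynomial (Fin (n i + 1)) ℂ} {d : Fin r → ℕ} {P : Place ℂ K} :
    LogPlace e x F d P ↔ Pool.Agent.H172.LG.Lg e x F d P :=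
  ⟨fun ⟨α, v, h, h'⟩ => ⟨α, v, ⟨h.1, h.2.1, h.2.2⟩, h'⟩,
    fun ⟨α, v, h, h'⟩ => ⟨α, v, ⟨h.h1, h.h2, h.h3⟩, h'⟩⟩

theorem section_iff {r : ℕ} {n : Fin r → ℕ} {N : ℕ} {K : Type} [Field K] [Algebra ℂ K]
    {e : ((i : Fin r) × Fin (n i)) ≃ Fin (N + 1)} {x : ∀ i, Fin (n i + 1) → K}
    {F : ∀ i, MvPolynomial (Fin (n i + 1)) ℂ} {d : Fin r → ℕ} {δ : (Fin r → ℕ) → ℚ}
    {S : Finset K} {m j : ℕ} {ω : (Fin (N + 1) → Derivation ℂ K K) → K} :
    IsSection e x F d δ S m j ω ↔
      Pool.Agent.H172.LG.LSec e x F d (fun v => (δ v : ℝ)) S m j ω := by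
  classical
  have key : ∀ (P : Place ℂ K) (s z : K) (v : Fin r → ℕ),
      ((j * P.ord s : ℚ) - (if v = 0 then 0 else m * δ v) ≤ P.ord z ↔
      (j * P.ord s : ℝ) - (if v = 0 then 0 else m * (δ v : ℝ)) ≤ P.ord z) := by
    intro P s z v
    have h1 : (((j * P.ord s : ℚ) - (if v = 0 then 0 else m * δ v) : ℚ) : ℝ) =
        (j * P.ord s : ℝ) - (if v = 0 then 0 else m * (δ v : ℝ)) := by
      split_ifs <;> push_cast <;> ring
    rw [← h1]
    constructor
    · intro h
      have h2 := (Rat.cast_le (K := ℝ)).2 h
      simpa using h2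
    · intro h
      have h2 : (((P.ord z : ℤ) : ℝ)) = (((P.ord z : ℤ) : ℚ) : ℝ) := by push_cast; rfl
      rw [h2] at h
      exact (Rat.cast_le (K := ℝ)).1 h
  unfold IsSection Pool.Agent.H172.LG.LSec
  refine and_congr Iff.rfl ?_
  constructor
  · intro h P hd α v hmu hP D hD
    refine (h P hd α v ⟨hmu.h1, hmu.h2, hmu.h3⟩ (hP.imp id log_iff.2) D hD).imp id ?_
    rintro ⟨s, hs, hs0, hle⟩
    exact ⟨s, hs, hs0, (key P s _ v).1 hle⟩
  · intro h P hd α v hmu hP D hD
    refine (h P hd α v ⟨hmu.1, hmu.2.1, hmu.2.2⟩ (hP.imp id log_iff.1) D hD).imp id ?_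
    rintro ⟨s, hs, hs0, hle⟩
    exact ⟨s, hs, hs0, (key P s _ v).2 hle⟩

/-- **A finite geography.** Let `K` be the function field of an abelian cover of the product of the
projective `n i`-spaces which is branched along smooth hypersurfaces `F i = 0` of the factors, let `rays` be
a finite set of primitive vectors, and let `η ≠ 0` be a rational canonical form. There are finitely many
affine functions `ℓ k` with rational coefficients, a number `D ≥ 1`, and for every place `P` and all values
of the signs of the `ℓ k` an affine function `φ P` with rational coefficients such that the following holds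
for all toroidal pairs `(X, Δ)` with rational coefficients `δ v ≤ 1` (`δ v = 1` for `v ∉ rays`) for which
`K_X + Δ` is pseudo-effective, and for all `q ≥ 1` such that `q * δ v` is an integer for all `v ∈ rays`:
along every prime divisor `P` over `X` the asymptotic order of `K_X + Δ` (with respect to `η`) is the value
at `δ` of the affine function `φ P` for the signs of the `ℓ k` at `δ`, and it is computed by a section of
`q D (K_X + Δ)`. -/
theorem result (r N R : ℕ) (n d : Fin r → ℕ) (hr : 1 ≤ r) (hn : ∀ i, 1 ≤ n i)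
    (hd : ∀ i, 1 ≤ d i) (e : ((i : Fin r) × Fin (n i)) ≃ Fin N)
    (F : ∀ i, MvPolynomial (Fin (n i + 1)) ℂ) (hF : ∀ i, (F i).IsHomogeneous (d i))
    (hs : ∀ i, Smooth (F i)) (m : Fin R → ℕ) (hm : ∀ j, 1 ≤ m j) (a : Fin R → Fin r → ℕ)
    (hdiv : ∀ j i, m j ∣ a j i * d i)
    (K : Type) [Field K] [Algebra ℂ K] (x : ∀ i, Fin (n i + 1) → K) (hx0 : ∀ i, x i 0 ≠ 0)
    (hbas : IsTranscendenceBasis ℂ (affine x)) (z : Fin R → K)
    (hz : ∀ j, z j ^ m j = ∏ i, (aeval (x i) (F i) / x i 0 ^ d i) ^ a j i)
    (hgen : IntermediateField.adjoin ℂ (Set.range (affine x) ∪ Set.range z) = ⊤)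
    (rays : Finset (Fin r → ℕ)) (hrays : ∀ v ∈ rays, Primitive m a v)
    (η : (Fin N → Derivation ℂ K K) → K) (hη : IsPluri 1 η) (hη0 : η ≠ 0) :
    ∃ (p : ℕ) (ℓ : Fin p → Affine r) (φ : Place ℂ K → (Fin p → SignType) → Affine r) (D : ℕ),
      1 ≤ D ∧ ∀ δ : (Fin r → ℕ) → ℚ, (∀ v, δ v ≤ 1) → (∀ v, v ∉ rays → δ v = 1) →
      Pseudoeffective e x F d δ →
      ∀ q : ℕ, 1 ≤ q → (∀ v ∈ rays, ∃ t : ℤ, (q : ℚ) * δ v = t) →
      ∀ P : Place ℂ K, Divisorial N P → AsymptoticOrder e x F d δ η (q * D) P
        (value rays (φ P fun k => SignType.sign (value rays (ℓ k) δ)) δ) := by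
  classical
  obtain ⟨N', rfl⟩ : ∃ N', N = N' + 1 := by
    have h1 := (e ⟨⟨0, hr⟩, ⟨0, hn _⟩⟩).pos
    exact ⟨N - 1, by omega⟩
  have hbas' : IsTranscendenceBasis ℂ (Pool.Agent.TH756.PR.uu e x) :=
    Pool.Agent.TH756.PR.basis_uu e hbas
  have hrange : Set.range (Pool.Agent.TH756.PR.uu e x) = Set.range (affine x) := by
    ext z
    constructor
    · rintro ⟨b, rfl⟩
      exact ⟨e.symm b, rfl⟩
    · rintro ⟨a, rfl⟩
      refine ⟨e a, ?_⟩
      change Pool.Agent.TH756.PR.aff x (e.symm (e a)) = _
      rw [e.symm_apply_apply]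
      rfl
  have hgen' : IntermediateField.adjoin ℂ (Set.range (Pool.Agent.TH756.PR.uu e x) ∪
      Set.range z) = ⊤ := by
    rw [hrange]
    exact hgen
  obtain ⟨p, ℓ, φ, D, hD, hgeo⟩ := Pool.Agent.H172.RP.geo_main (e := e) hn hx0 hbas' hd hs hF hm hz
    hdiv hgen' hrays hη hη0
  refine ⟨p, ℓ, φ, D, hD, fun δ hδ hoff hps q hq hqr P _ => ?_⟩
  have hineq : ∀ v, Primitive m a v → 1 - δ v ≤ ∑ i, (((d i : ℚ) - n i - 1) / d i) * v i := by
    obtain ⟨S, hS⟩ := hps
    intro v hv
    have h1 := Pool.Agent.H172.LG.psef_main (e := e) hn hx0 hbas' hd hs hF hm hz hdiv hgen'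
      (δ := fun v => (δ v : ℝ)) (fun v => by exact_mod_cast hδ v) hv
      ⟨S, fun M => by
        obtain ⟨j, hj, ω, hω0, hω⟩ := hS M
        exact ⟨j, hj, ω, hω0, section_iff.1 hω⟩⟩
    exact_mod_cast h1
  obtain ⟨h5, h6, s, hs0, hs1, hs2⟩ := hgeo δ hδ hoff hineq q (q * D) hq hqr rfl P _ rfl
  refine ⟨fun m ω hm hω => h5 m ω hm (section_iff.1 hω), fun S => ?_, s, hs0, section_iff.2 hs1, hs2⟩
  obtain ⟨c, hc⟩ := h6 S
  refine ⟨c, fun m ω hm hω v hv => ?_⟩
  have h7 := hc m ω hm (section_iff.1 hω) v hv
  change m * value rays (φ P fun k => SignType.sign (value rays (ℓ k) δ)) δ ≤ _ at h7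
  linarith

end Pool.Agent.Results.MP_a27c81_ag.Geography
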