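import Pool.Agent.Q123.MF.Main

set_option autoImplicit false

/-!
# The log minimal model program for pairs on finite quotients of complex tori

Let `X = V / Γ` be the quotient of a complex torus of any dimension (an abelian variety, in the
projective case) by any finite group, which may contain reflections, so that `V → X` may be ramified
along divisors and `K_X` may be negative. Let `Δ` be an effective divisor with real coefficients. Then
the log minimal model program for `(X, Δ)` ends with `X' = X`, without any divisorial contraction or
flip: either `K_X + Δ` is nef, or there is a fibration `f : X → B` onto a torus quotient with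
`dim B < dim X` and `-(K_X + Δ)` relatively ample. Moreover `f` contracts the whole negative part of
`K_X + Δ`: the class is positive semidefinite on the orthogonal complement of the directions of the
fibres, and the directions of the fibres are spanned by the root lines of reflections in `Γ` on which
the class is negative.

The proof. Let `H` be the class of `K_X + Δ`, a hermitian form on `V` invariant under the finite group
`G` of the linear parts, and `H₀` an invariant positive definite form. Let `g` in `G` be the linear part
of a reflection in `Γ`, with root line `ℂ r = im (g - 1)`. As `g r = ζ r`, `ζ ≠ 1`, each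
invariant form vanishes on `(r, w)` for `w` fixed by `g`; so `r` is an eigenvector of `H` with
respect to `H₀`. Let `U` be the span of the roots with negative eigenvalue. Then `H` is negative
definite on `U`. If `H` were negative somewhere on the complement of `U`, the minimum of `H / H₀` there
would be attained at an eigenvector `v` of `H`, orthogonal to all roots, hence fixed by the linear parts
of all reflections. But the class of `K_X` vanishes on `v` (starting library,
`Pool.Agent.Y167.mirror_zero`), and that of `Δ` is semidefinite. Finally `U` is invariant and spanned by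
the vectors `g b - b`, `b` in the lattice, so that it defines a fibration.

`latt`, `IsTorusQuotient` and `LineBundle` are defined in `Pool.Agent.W594.SYZ.Defs2`; `IsChernForm`,
`IsNefForm` in `Pool.Agent.W594.SYZ.TQDefs`; `IsFibration` in `Pool.Agent.TH735.AQ.Defs`; `OnMirror`,
`ramIndex`, `IsRamification` and `IsLogPluricanonical` in `Pool.Agent.TH735.AQ.MirDefs`; `EffDiv` in
`Pool.Agent.Y167.Defs`; `adjClass` in `Pool.Agent.Q82.TQ.AdjDefs`; `IsRefl`, `IsRoot` and `negPart` in
`Pool.Agent.Q123.MF.Herm`, `Pool.Agent.Q123.MF.Neg`.
-/

namespace Pool.Agent.Results.MP_a27c81_ag.TorusQuotientMoriFibrations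

open Pool.Agent.W594.SYZ2 Pool.Agent.TH735.AQ Pool.Agent.Y167 Pool.Agent.Q82.TQ
  Pool.Agent.Q123.MF

/-- Let `X = V / Γ` be a quotient of a complex torus by a finite group, `ρ` an entire function which
defines the ramification divisor of `V → X`, `K = O_X(q K_X)` with Chern form `HK`,
`Δ = ∑ i, r i • div (s i)` an effective divisor with real coefficients, and `H = adjClass q HK Δ` the
class of `K_X + Δ`. There are a torus quotient `W / B`, `W = ℂ ^ n`, and a fibration `f : X → W / B`,
given by a linear map `π`, such that
* the kernel of `π`, the space of directions of the fibres, is the span of the root vectors `r` of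
  reflections in `Γ` with `H(r, r) < 0`;
* `-(K_X + Δ)` is relatively ample: `H` is negative definite on the kernel of `π`;
* `H` is positive semidefinite on the orthogonal complement (with respect to `H`) of this kernel;
* `dim W / B < dim X` if and only if `K_X + Δ` is not nef.
So either `K_X + Δ` is nef or `X` has a Mori fibration in the sense of outcome 2. -/
theorem result {V : Type*} [NormedAddCommGroup V] [NormedSpace ℂ V] [FiniteDimensional ℂ V]
    (Γ : Subgroup (V ≃ᵃ[ℂ] V)) (hΓ : IsTorusQuotient Γ) (q : ℕ) (hq : 1 ≤ q) (ρ : V → ℂ)
    (hρ : IsRamification Γ ρ) (K : LineBundle Γ) (hK : IsLogPluricanonical K q ρ (fun _ => 1))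
    (HK : V → V → ℂ) (hc : IsChernForm K HK) (ι : Type) [Fintype ι] (Δ : EffDiv Γ ι) :
    ∃ (n : ℕ) (B : Subgroup ((Fin n → ℂ) ≃ᵃ[ℂ] (Fin n → ℂ))) (π : V →ₗ[ℂ] (Fin n → ℂ)),
      IsFibration Γ B π ∧ (∀ v, π v = 0 ↔ v ∈ negPart Γ (adjClass q HK Δ)) ∧
      (∀ v, v ≠ 0 → π v = 0 → (adjClass q HK Δ v v).re < 0) ∧
      (∀ v, (∀ u, π u = 0 → adjClass q HK Δ u v = 0) → 0 ≤ (adjClass q HK Δ v v).re) ∧
      (¬ IsNefForm (adjClass q HK Δ) ↔ n < Module.finrank ℂ V) :=
  main hΓ hq hρ hK hc Δ

end Pool.Agent.Results.MP_a27c81_ag.TorusQuotientMoriFibrations
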